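import Pool.Agent.W780.BB.Stm

/-! BB-TRIP: three crossings of three different sides take some time. -/

set_option autoImplicit false

namespace Pool.Agent.W340.BB.Trip

open Complex Set Filter Topology Pool.Agent.W780.PG Pool.Agent.W780.BB

open scoped Real ComplexConjugate

variable {n : ℕ}

theorem lft_comb (a b z w : ℂ) (s t : ℝ) (h : s + t = 1) :
    lft a b (s • z + t • w) = s * lft a b z + t * lft a b w := by
  have ht : t = 1 - s := by linarith
  subst ht
  simp only [lft, mul_im, sub_re, sub_im, conj_re, conj_im, add_re, add_im, real_smul, ofReal_re,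
    ofReal_im, mul_re]
  ring

theorem lft_ends (a b : ℂ) : lft a b a = 0 ∧ lft a b b = 0 := by
  constructor
  · simp [lft]
  · simp only [lft, mul_im, sub_re, sub_im, conj_re, conj_im]; ring

theorem seg_line {a b z : ℂ} (hz : z ∈ segment ℝ a b) : lft a b z = 0 := by
  obtain ⟨s, t, -, -, hst, rfl⟩ := hz
  rw [lft_comb _ _ _ _ _ _ hst, (lft_ends a b).1, (lft_ends a b).2]; ring

theorem norm_dir (θ : ℝ) : ‖dir θ‖ = 1 := by
  unfold dir; exact norm_exp_ofReal_mul_I θ

/-- two compact sets which do not meet are at a positive distance -/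
theorem pos_dist {A B : Set ℂ} (hA : IsCompact A) (hB : IsCompact B) (h : Disjoint A B) :
    ∃ d : ℝ, 0 < d ∧ ∀ x ∈ A, ∀ y ∈ B, d ≤ ‖y - x‖ := by
  by_cases hne : A.Nonempty ∧ B.Nonempty
  · obtain ⟨⟨x, y⟩, hxy, hmin⟩ := (hA.prod hB).exists_isMinOn (hne.1.prod hne.2)
      (f := fun q : ℂ × ℂ => ‖q.2 - q.1‖) (by fun_prop)
    refine ⟨‖y - x‖, ?_, fun x' hx' y' hy' =>
      isMinOn_iff.1 hmin (x', y') ⟨hx', hy'⟩⟩
    rw [norm_pos_iff, sub_ne_zero]
    rintro rfl
    exact Set.disjoint_left.1 h hxy.1 hxy.2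
  · refine ⟨1, one_pos, fun x hx y hy => absurd ⟨⟨x, hx⟩, ⟨y, hy⟩⟩ hne⟩

theorem vertex_sides {p : Fin (n + 3) → ℂ} (hp : IsConvexPolygon p) {i m : Fin (n + 3)}
    (h : lft (p i) (p (i + 1)) (p m) = 0) : i = m ∨ i = m - 1 := by
  by_contra hcon
  push Not at hcon
  have h1 : m ≠ i := fun h => hcon.1 h.symm
  have h2 : m ≠ i + 1 := fun h => hcon.2 (by rw [h]; simp)
  exact (hp.pos i m h1 h2).ne' h

theorem trip (hR : S_Ref) (hB : S_Basic) : S_Trip := by
  intro n p hp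
  obtain ⟨-, -, hrs, hrfix, hrdir, -⟩ := hR n p hp
  obtain ⟨-, -, -, -, hconv, -, -, hpc, -, -, hside, -, -, -⟩ := hB n p hp
  have hsegc : ∀ i, segment ℝ (p i) (p (i + 1)) ⊆ creg p := fun i =>
    hconv.segment_subset (hpc i) (hpc (i + 1))
  have hrcont : ∀ j, Continuous (rf p j) := by
    intro j
    unfold rf
    fun_prop
  have key : ∀ i j k : Fin (n + 3), i ≠ j → j ≠ k → i ≠ k →
      Disjoint (segment ℝ (p i) (p (i + 1))) (rf p j '' segment ℝ (p k) (p (k + 1))) := by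
    intro i j k hij hjk hik
    rw [Set.disjoint_left]
    rintro z hz ⟨z', hz', rfl⟩
    have h1 : 0 ≤ sf p j (rf p j z') := hsegc i hz j
    have h2 : 0 ≤ sf p j z' := hsegc k hz' j
    rw [hrs] at h1
    have h3 : sf p j z' = 0 := le_antisymm (by linarith) h2
    have h4 : rf p j z' = z' := hrfix j z' h3
    rw [h4] at hz
    have hi : lft (p i) (p (i + 1)) z' = 0 := seg_line hz
    have hk : lft (p k) (p (k + 1)) z' = 0 := seg_line hz'
    have hj : lft (p j) (p (j + 1)) z' = 0 := h3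
    by_cases hv : ∀ m, z' ≠ p m
    · have h5 := (hside z' (hsegc k hz') i hi hv).2 j hij.symm
      rw [hj] at h5
      exact lt_irrefl _ h5
    · push Not at hv
      obtain ⟨m, rfl⟩ := hv
      rcases vertex_sides hp hi with h | h <;> rcases vertex_sides hp hj with h' | h' <;>
        rcases vertex_sides hp hk with h'' | h'' <;>
        first
          | exact hij (h.trans h'.symm)
          | exact hjk (h'.trans h''.symm)
          | exact hik (h.trans h''.symm)
  have hcompact : ∀ i, IsCompact (segment ℝ (p i) (p (i + 1))) := fun i => by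
    rw [segment_eq_image_lineMap]
    exact isCompact_Icc.image (by fun_prop)
  have hd : ∀ q : Fin (n + 3) × Fin (n + 3) × Fin (n + 3), ∃ d : ℝ, 0 < d ∧
      (q.1 ≠ q.2.1 → q.2.1 ≠ q.2.2 → q.1 ≠ q.2.2 → ∀ x ∈ segment ℝ (p q.1) (p (q.1 + 1)),
        ∀ y ∈ rf p q.2.1 '' segment ℝ (p q.2.2) (p (q.2.2 + 1)), d ≤ ‖y - x‖) := by
    rintro ⟨i, j, k⟩
    by_cases h : i ≠ j ∧ j ≠ k ∧ i ≠ k
    · obtain ⟨d, hd, h'⟩ := pos_dist (hcompact i) ((hcompact k).image (hrcont j))
        (key i j k h.1 h.2.1 h.2.2)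
      exact ⟨d, hd, fun _ _ _ => h'⟩
    · exact ⟨1, one_pos, fun h1 h2 h3 => absurd ⟨h1, h2, h3⟩ h⟩
  choose D hD0 hD using hd
  obtain ⟨q0, -, hq0⟩ := Finset.exists_min_image Finset.univ D ⟨(0, 0, 0), Finset.mem_univ _⟩
  refine ⟨D q0, hD0 q0, ?_⟩
  intro i j k y₀ y₁ y₂ θ l₀ l₁ hij hjk hik h0 h1 h2 hl0 hl1 e1 e2
  have hy1 : sf p j y₁ = 0 := seg_line (openSegment_subset_segment ℝ _ _ h1)
  have h3 : rf p j y₂ = y₀ + (l₀ + l₁) • dir θ := by
    rw [e2, hrdir, hrfix j y₁ hy1, sub_sub_cancel, e1, add_assoc, ← add_smul]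
  have h4 := hD (i, j, k) hij hjk hik y₀ (openSegment_subset_segment ℝ _ _ h0) (rf p j y₂)
    ⟨y₂, openSegment_subset_segment ℝ _ _ h2, rfl⟩
  rw [h3, add_sub_cancel_left, norm_smul, norm_dir, mul_one, Real.norm_of_nonneg (by linarith)] at h4
  exact (hq0 (i, j, k) (Finset.mem_univ _)).trans h4

end Pool.Agent.W340.BB.Trip
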